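import Pool.Agent.H92.EHD.TP

set_option autoImplicit false

namespace Pool.Agent.H60.EHD

open MeasureTheory Pool.Agent.H92.EQ Pool.Agent.H92.EHD

theorem pf_EG1 : T_EG1 := by
  intro Q hQ c
  set f : ℂ → ℂ := fun z => Q.eval (z * c) with hf
  have han : ∀ z, AnalyticAt ℂ f z := by
    intro z
    have hd : Differentiable ℂ f := by
      intro w
      exact (Q.differentiable.differentiableAt).comp w (by fun_prop)
    exact hd.analyticAt z
  have hmer : ∀ U : Set ℂ, MeromorphicOn f U := fun U z _ => (han z).meromorphicAt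
  have hf0 : f 0 ≠ 0 := by simpa [hf] using hQ
  have hcm : ∀ θ : ℝ, circleMap 0 1 θ = Complex.exp (θ * Complex.I) := by
    intro θ
    simp [circleMap]
  have hint : CircleIntegrable (Real.log ‖f ·‖) 0 1 :=
    (hmer _).circleIntegrable_log_norm
  have hint' : IntervalIntegrable
      (fun θ : ℝ => Real.log ‖Q.eval (Complex.exp (θ * Complex.I) * c)‖)
      volume 0 (2 * Real.pi) := by
    have h := hint
    unfold CircleIntegrable at h
    simpa only [hcm, hf] using h
  refine ⟨hint', ?_⟩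
  have hav : Real.circleAverage (Real.log ‖f ·‖) 0 1 = (2 * Real.pi)⁻¹ *
      ∫ θ in (0 : ℝ)..(2 * Real.pi), Real.log ‖Q.eval (Complex.exp (θ * Complex.I) * c)‖ := by
    rw [Real.circleAverage_def]
    simp only [hcm, hf, smul_eq_mul]
  have hj := MeromorphicOn.circleAverage_log_norm (c := (0 : ℂ)) (R := 1) (f := f) one_ne_zero
    (hmer _)
  have hnn : 0 ≤ MeromorphicOn.divisor f (Metric.closedBall (0 : ℂ) |(1 : ℝ)|) := by
    apply MeromorphicOn.AnalyticOnNhd.divisor_nonneg
    intro z _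
    exact han z
  have hsum : 0 ≤ ∑ᶠ u, (MeromorphicOn.divisor f (Metric.closedBall (0 : ℂ) |(1 : ℝ)|) u : ℝ) *
      Real.log (1 * ‖(0 : ℂ) - u‖⁻¹) := by
    apply finsum_nonneg
    intro u
    by_cases hu : u ∈ Metric.closedBall (0 : ℂ) |(1 : ℝ)|
    · apply mul_nonneg
      · exact_mod_cast hnn u
      · rw [one_mul, zero_sub, norm_neg, Real.log_inv]
        have : ‖u‖ ≤ 1 := by simpa using hu
        have := Real.log_nonpos (norm_nonneg u) this
        linarith
    · have : MeromorphicOn.divisor f (Metric.closedBall (0 : ℂ) |(1 : ℝ)|) u = 0 :=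
        Function.locallyFinsuppWithin.apply_eq_zero_of_notMem _ hu
      simp [this]
  have htr : meromorphicTrailingCoeffAt f 0 = f 0 :=
    (han 0).meromorphicTrailingCoeffAt_of_ne_zero hf0
  rw [htr, hav, Real.log_one, mul_zero, add_zero] at hj
  have hf0' : f 0 = Q.eval 0 := by simp [hf]
  rw [hf0'] at hj
  have hpi : 0 < 2 * Real.pi := by positivity
  have h2 : Real.log ‖Q.eval 0‖ ≤ (2 * Real.pi)⁻¹ *
      ∫ θ in (0 : ℝ)..(2 * Real.pi), Real.log ‖Q.eval (Complex.exp (θ * Complex.I) * c)‖ := by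
    rw [hj]
    linarith
  calc 2 * Real.pi * Real.log ‖Q.eval 0‖ ≤ 2 * Real.pi * ((2 * Real.pi)⁻¹ *
      ∫ θ in (0 : ℝ)..(2 * Real.pi), Real.log ‖Q.eval (Complex.exp (θ * Complex.I) * c)‖) :=
        mul_le_mul_of_nonneg_left h2 hpi.le
    _ = _ := by rw [← mul_assoc, mul_inv_cancel₀ (ne_of_gt hpi), one_mul]

end Pool.Agent.H60.EHD
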